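import Mathlib
import Pool.Agent.Q120.ZG.Main

/-!
# An additive bound for zero-sum Ramsey numbers over every finite abelian group

`R(G, Γ) ≤ n + C(Γ)` for every finite abelian group `Γ` and every graph `G` on `n` vertices whose
number of edges is divisible by the exponent of `Γ`.  In particular `R(G, Z_2^2) ≤ n + C` for every
graph `G` with an even number of edges.
-/

namespace Pool.Agent.Results.MP_c15e47_co.AdditiveBound

open SimpleGraph Finset

/-- The map from a graph `G` to the complete graph given by an injection of the vertices. -/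
def toTop {V : Type} {N : ℕ} (G : SimpleGraph V) (φ : V ↪ Fin N) : G →g (⊤ : SimpleGraph (Fin N)) where
  toFun := φ
  map_rel' := fun h => φ.injective.ne h.ne

/-- `Forces G Γ N`: every colouring of the edges of `K_N` by elements of `Γ` contains a copy of `G`
(the image of `G` under an injection `φ` of its vertices) whose edge colours sum to `0`. -/
def Forces {V : Type} (G : SimpleGraph V) (Γ : Type) [AddCommGroup Γ] (N : ℕ) : Prop :=
  ∀ c : TopEdgeLabeling (Fin N) Γ, ∃ φ : V ↪ Fin N,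
    ∑ᶠ e : G.edgeSet, c ((toTop G φ).mapEdgeSet e) = 0

/-- The zero-sum Ramsey number `R(G, Γ)`. -/
noncomputable def R {V : Type} (G : SimpleGraph V) (Γ : Type) [AddCommGroup Γ] : ℕ :=
  sInf {N | Forces G Γ N}

/-- The general bound, in terms of any `k ≥ 1` with `k • a = 0` for all `a : Γ`. -/
theorem bound (Γ : Type) [AddCommGroup Γ] [Finite Γ] (k : ℕ) (hk : 0 < k)
    (hkΓ : ∀ a : Γ, k • a = 0) :
    ∃ C : ℕ, ∀ (n : ℕ) (G : SimpleGraph (Fin n)), k ∣ G.edgeSet.ncard →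
      ∀ N : ℕ, n + C ≤ N → Forces G Γ N := by
  classical
  let _ : Fintype Γ := Fintype.ofFinite Γ
  obtain ⟨C, hC⟩ := Pool.Agent.Q120.ZG.mainA Γ k hk hkΓ
  refine ⟨C, ?_⟩
  intro n G hG N hN c
  let f : Sym2 (Fin N) → Γ := fun e => if h : e ∈ (⊤ : SimpleGraph (Fin N)).edgeSet then c ⟨e, h⟩ else 0
  obtain ⟨ρ, hρ, hS⟩ := hC (Fin n) (Fin N) G (by
    rw [← SimpleGraph.coe_edgeFinset, Set.ncard_coe_finset] at hG
    exact hG) (by simpa using hN) f
  refine ⟨⟨ρ, hρ⟩, ?_⟩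
  rw [finsum_eq_sum_of_fintype]
  unfold Pool.Agent.H730R3.S at hS
  rw [← hS]
  have h1 : ∑ e ∈ G.edgeFinset, f (Sym2.map ρ e) = ∑ e : G.edgeSet, f (Sym2.map ρ e.1) := by
    rw [← Finset.sum_coe_sort]
    refine Finset.sum_bij' (fun e _ => ⟨e.1, SimpleGraph.mem_edgeFinset.1 e.2⟩)
      (fun e _ => ⟨e.1, SimpleGraph.mem_edgeFinset.2 e.2⟩)
      ?_ ?_ ?_ ?_ ?_ <;> simp
  rw [h1]
  refine Finset.sum_congr rfl fun e _ => ?_
  have hmem : Sym2.map ρ e.1 ∈ (⊤ : SimpleGraph (Fin N)).edgeSet :=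
    ((toTop G ⟨ρ, hρ⟩).mapEdgeSet e).2
  simp only [f, dif_pos hmem]
  rfl

/-- Positive answer to Q1, and the same for every finite abelian group. -/
theorem result :
    (∃ C : ℕ, ∀ (n : ℕ) (G : SimpleGraph (Fin n)), Even G.edgeSet.ncard →
      (∀ N : ℕ, n + C ≤ N → Forces G (ZMod 2 × ZMod 2) N) ∧ R G (ZMod 2 × ZMod 2) ≤ n + C) ∧
    (∀ (Γ : Type) [AddCommGroup Γ] [Finite Γ], ∃ C : ℕ, ∀ (n : ℕ) (G : SimpleGraph (Fin n)),
      AddMonoid.exponent Γ ∣ G.edgeSet.ncard →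
      (∀ N : ℕ, n + C ≤ N → Forces G Γ N) ∧ R G Γ ≤ n + C) := by
  constructor
  · obtain ⟨C, hC⟩ := bound (ZMod 2 × ZMod 2) 2 (by norm_num) (by decide)
    refine ⟨C, fun n G hG => ?_⟩
    have h := hC n G (even_iff_two_dvd.1 hG)
    exact ⟨h, Nat.sInf_le (h _ le_rfl)⟩
  · intro Γ _ _
    obtain ⟨C, hC⟩ := bound Γ (AddMonoid.exponent Γ)
      (Nat.pos_of_ne_zero AddMonoid.exponent_ne_zero_of_finite)
      (fun a => AddMonoid.exponent_nsmul_eq_zero a)
    refine ⟨C, fun n G hG => ?_⟩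
    have h := hC n G hG
    exact ⟨h, Nat.sInf_le (h _ le_rfl)⟩

end Pool.Agent.Results.MP_c15e47_co.AdditiveBound
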